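import Pool.Agent.Helper54.SL.Defs
import Pool.Agent.Helper54.PW.Final
import Pool.Agent.Helper51.PW.Degree

/-!
SL-7. Estimate of the small root at infinity.
-/

set_option autoImplicit false
set_option linter.unusedVariables false
set_option linter.unusedSectionVars false
open scoped Pointwise
open Pool.Agent.Helper54.PW

namespace Pool.Agent.Helper54.SL

/-- the abstract estimate: `θ = -δ + θ^q (1 - δ) - ε (1 + θ)` -/
private theorem es_core {L : Type} [Field L] (A : ValuationSubring L) (q : ℕ) (hq : 3 ≤ q)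
    (δ ε θ w : L) (hδ : A.valuation δ ≤ A.valuation w) (hε : A.valuation ε ≤ A.valuation (w * w))
    (hw : A.valuation w ≤ 1) (hδ1 : A.valuation δ ≤ 1)
    (hθ : A.valuation θ < 1) (heq : θ = -δ + θ ^ q * (1 - δ) - ε * (1 + θ)) :
    A.valuation (1 - (1 + δ) * ((1 + θ ^ q) * (1 + θ))) ≤ A.valuation (w * w) := by
  have hww : A.valuation (w * w) ≤ A.valuation w := by
    rw [map_mul]
    exact mul_le_of_le_one_left' hw
  have hww1 : A.valuation (w * w) ≤ 1 := hww.trans hw
  have hε1 : A.valuation ε ≤ 1 := hε.trans hww1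
  have h1θ : A.valuation (1 + θ) ≤ 1 := by
    refine (A.valuation.map_add_le (le_of_eq (map_one _)) hθ.le)
  have h1δ : A.valuation (1 + δ) ≤ 1 := A.valuation.map_add_le (le_of_eq (map_one _)) hδ1
  have h1δ' : A.valuation (1 - δ) ≤ 1 := A.valuation.map_sub_le (le_of_eq (map_one _)) hδ1
  -- val θ ≤ val w
  have hθw : A.valuation θ ≤ A.valuation w := by
    by_contra hcon
    push Not at hcon
    have hθ0 : 0 < A.valuation θ := lt_of_le_of_lt zero_le hcon
    have a1 : A.valuation (-δ) < A.valuation θ := by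
      rw [Valuation.map_neg]; exact lt_of_le_of_lt hδ hcon
    have a2 : A.valuation (θ ^ q * (1 - δ)) < A.valuation θ := by
      rw [map_mul, map_pow]
      have b1 : A.valuation θ ^ q < A.valuation θ := by
        have : q = (q - 1) + 1 := by omega
        rw [this, pow_succ]
        have b2 : A.valuation θ ^ (q - 1) < 1 := pow_lt_one' hθ (by omega)
        calc A.valuation θ ^ (q - 1) * A.valuation θ < 1 * A.valuation θ :=
              mul_lt_mul_of_pos_right b2 hθ0
          _ = A.valuation θ := one_mul _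
      exact lt_of_le_of_lt (mul_le_of_le_one_right' h1δ') b1
    have a3 : A.valuation (ε * (1 + θ)) < A.valuation θ := by
      rw [map_mul]
      exact lt_of_le_of_lt (mul_le_of_le_one_right' h1θ)
        (lt_of_le_of_lt (hε.trans hww) hcon)
    have a4 : A.valuation (-δ + θ ^ q * (1 - δ) - ε * (1 + θ)) < A.valuation θ :=
      A.valuation.map_sub_lt (A.valuation.map_add_lt a1 a2) a3
    rw [← heq] at a4
    exact lt_irrefl _ a4
  -- products
  have hθq : A.valuation (θ ^ q) ≤ A.valuation (w * w) := by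
    have : q = 2 + (q - 2) := by omega
    rw [this, pow_add, map_mul, map_pow, map_pow, pow_two, map_mul]
    refine (mul_le_of_le_one_right' (pow_le_one' hθ.le _)).trans ?_
    exact mul_le_mul' hθw hθw
  have hsum : A.valuation (θ + δ) ≤ A.valuation (w * w) := by
    have e1 : θ + δ = θ ^ q * (1 - δ) - ε * (1 + θ) := by
      linear_combination heq
    rw [e1]
    refine A.valuation.map_sub_le ?_ ?_
    · rw [map_mul]
      exact (mul_le_of_le_one_right' h1δ').trans hθq
    · rw [map_mul]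
      exact (mul_le_of_le_one_right' h1θ).trans hε
  have e2 : 1 - (1 + δ) * ((1 + θ ^ q) * (1 + θ)) =
      -((θ + δ) + δ * θ + θ ^ q * ((1 + δ) * (1 + θ))) := by ring
  rw [e2, Valuation.map_neg]
  refine A.valuation.map_add_le (A.valuation.map_add_le hsum ?_) ?_
  · rw [map_mul, map_mul]
    exact mul_le_mul' hδ hθw
  · rw [map_mul]
    refine (mul_le_of_le_one_right' ?_).trans hθq
    rw [map_mul]
    exact mul_le_one' h1δ h1θ

section Inf
variable {p n : ℕ} [Fact p.Prime] {k L : Type} [Field k] [IsAlgClosed k] [CharP k p] [Field L]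
  [Algebra k L] [Algebra (RatFunc k) L] [IsScalarTower k (RatFunc k) L]

theorem estimate (hp2 : p ≠ 2) (hn : 0 < n) (c : ℕ → k) (hc : c (n - 1) = 1) (A : ValuationSubring L)
    (hA : IsPlace k A) (hX : tX k L ∉ A) (y0 : L) (h0 : Rt (p ^ n) (pk k L (TP p n c)) y0)
    (hres : y0 * tX k L ^ (p ^ (n - 1)) - 1 ∈ A.nonunits) :
    (y0 ^ (p ^ n + 1))⁻¹ - pk k L (BP p n c) ∈ A.nonunits := by
  have hpp : p.Prime := Fact.out
  have hp3 : 3 ≤ p := by
    have := hpp.two_le
    omega
  have hcharL : CharP L p := charP_of_injective_algebraMap (algebraMap k L).injective p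
  have hq : p ^ n = p * p ^ (n - 1) := by
    rw [← pow_succ', Nat.sub_add_cancel hn]
  have hodd : Odd (p ^ (n - 1)) := (hpp.odd_of_ne_two hp2).pow
  have hpi : ∀ i, i < n - 1 → 3 * p ^ i ≤ p ^ (n - 1) := by
    intro i hi
    calc 3 * p ^ i ≤ p * p ^ i := Nat.mul_le_mul_right _ hp3
      _ = p ^ (i + 1) := (pow_succ' p i).symm
      _ ≤ p ^ (n - 1) := Nat.pow_le_pow_right hpp.pos hi
  have hpi1 : ∀ i, 1 ≤ p ^ i := fun i => Nat.one_le_pow _ _ hpp.pos
  have hm1 : 1 ≤ p ^ (n - 1) := hpi1 _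
  have hfrob : ∀ a b : L, (a + b) ^ (p ^ n) = a ^ (p ^ n) + b ^ (p ^ n) := fun a b =>
    add_pow_char_pow a b _ _
  unfold TP at h0
  unfold BP
  obtain ⟨n', rfl⟩ : ∃ n', n = n' + 1 := ⟨n - 1, by omega⟩
  simp only [Nat.add_sub_cancel] at *
  rw [Finset.sum_range_succ]
  generalize hmdef : p ^ n' = m at *
  generalize hqdef : p ^ (n' + 1) = q at *
  set x := tX k L with hx
  obtain ⟨e', he'⟩ : ∃ e', m + 1 = 2 * e' := by
    obtain ⟨t, ht⟩ := hodd
    exact ⟨t + 1, by omega⟩
  have hq3 : 3 * m ≤ q := by rw [hq]; exact Nat.mul_le_mul_right _ hp3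
  have hx0 : x ≠ 0 := fun h => hX (by rw [h]; exact A.zero_mem)
  set s := x⁻¹ with hs
  have hs0 : s ≠ 0 := inv_ne_zero hx0
  have hxs : x * s = 1 := mul_inv_cancel₀ hx0
  have hxspow : ∀ j, x ^ j * s ^ j = 1 := fun j => by rw [← mul_pow, hxs, one_pow]
  have hcan : ∀ a b : ℕ, x ^ (a + b) * s ^ b = x ^ a := fun a b => by
    rw [pow_add, mul_assoc, hxspow, mul_one]
  have hvs : A.valuation s < 1 := by
    have h1 : 1 < A.valuation x := by
      rw [← not_le, A.valuation_le_one_iff]; exact hX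
    rw [hs, map_inv₀]
    exact inv_lt_one_of_one_lt₀ h1
  have hvs1 : A.valuation s ≤ 1 := hvs.le
  have hvc : ∀ a : k, A.valuation (algebraMap k L a) ≤ 1 := fun a =>
    (A.valuation_le_one_iff _).2 (hA.2 a)
  let δ : L := ∑ i ∈ Finset.range n', algebraMap k L (c i) * s ^ ((q + 1) * (m - p ^ i))
  -- the two polynomials
  have hT : pk k L (Polynomial.X ^ (m * (q - 1)) - ∑ i ∈ Finset.range n',
      Polynomial.C (c i) * Polynomial.X ^ (p ^ i * (q + 1) - 2 * m)) =
      x ^ (m * (q - 1)) * (1 - δ) := by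
    rw [map_sub, map_pow, pk_X, map_sum, mul_sub, mul_one, Finset.mul_sum]
    congr 1
    refine Finset.sum_congr rfl fun i hi => ?_
    rw [map_mul, map_pow, pk_C, pk_X]
    have hi' := hpi i (Finset.mem_range.1 hi)
    have e1 : m * (q - 1) = (p ^ i * (q + 1) - 2 * m) + (q + 1) * (m - p ^ i) := by
      have h2 : 2 * m ≤ p ^ i * (q + 1) := by
        calc 2 * m ≤ 1 * (q + 1) := by omega
          _ ≤ p ^ i * (q + 1) := Nat.mul_le_mul_right _ (hpi1 i)
      have h3 : p ^ i ≤ m := by omega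
      have h1q : 1 ≤ q := by omega
      zify [h2, h3, h1q]
      ring
    rw [e1]
    calc algebraMap k L (c i) * x ^ (p ^ i * (q + 1) - 2 * m)
        = algebraMap k L (c i) * (x ^ ((p ^ i * (q + 1) - 2 * m) + (q + 1) * (m - p ^ i)) *
            s ^ ((q + 1) * (m - p ^ i))) := by rw [hcan]
      _ = _ := by ring
  have hB : pk k L (∑ i ∈ Finset.range n', Polynomial.C (c i) * Polynomial.X ^ (p ^ i * (q + 1)) +
      Polynomial.C (c n') * Polynomial.X ^ (m * (q + 1))) = x ^ (m * (q + 1)) * (1 + δ) := by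
    rw [map_add, map_mul, map_pow, pk_X, pk_C, hc, map_one, one_mul, map_sum,
      mul_add (x ^ (m * (q + 1))) 1 δ, mul_one, Finset.mul_sum, add_comm]
    congr 1
    refine Finset.sum_congr rfl fun i hi => ?_
    rw [map_mul, map_pow, pk_C, pk_X]
    have hi' := hpi i (Finset.mem_range.1 hi)
    have e1 : m * (q + 1) = p ^ i * (q + 1) + (q + 1) * (m - p ^ i) := by
      have h3 : p ^ i ≤ m := by omega
      zify [h3]
      ring
    rw [e1]
    calc algebraMap k L (c i) * x ^ (p ^ i * (q + 1))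
        = algebraMap k L (c i) * (x ^ (p ^ i * (q + 1) + (q + 1) * (m - p ^ i)) *
            s ^ ((q + 1) * (m - p ^ i))) := by rw [hcan]
      _ = _ := by ring
  rw [hT] at h0
  rw [hB]
  let w : L := s ^ ((q + 1) * e')
  have hww : w * w = s ^ ((q + 1) * (m + 1)) := by
    show s ^ ((q + 1) * e') * s ^ ((q + 1) * e') = _
    rw [← pow_add, he']
    congr 1
    ring
  have hδ : A.valuation δ ≤ A.valuation w := by
    refine A.valuation.map_sum_le fun i hi => ?_
    have hi' := hpi i (Finset.mem_range.1 hi)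
    have hi1 := hpi1 i
    rw [map_mul, map_pow, map_pow]
    refine (mul_le_of_le_one_left' (hvc _)).trans ?_
    refine pow_le_pow_right_of_le_one' hvs1 ?_
    exact Nat.mul_le_mul_left _ (by omega)
  have hw : A.valuation w ≤ 1 := by
    rw [map_pow]; exact pow_le_one' hvs1 _
  have hη : A.valuation (y0 * x ^ m) = 1 := by
    have h1 : y0 * x ^ m = 1 + (y0 * x ^ m - 1) := by ring
    rw [h1]
    rw [Valuation.map_add_eq_of_lt_left]
    · exact map_one _
    · rw [map_one]
      exact (ValuationSubring.mem_nonunits_iff A).1 hres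
  have hy00 : y0 ≠ 0 := by
    rintro rfl
    rw [zero_mul, map_zero] at hη
    exact zero_ne_one hη
  have hε : A.valuation (y0 ^ (q ^ 2 - 1)) ≤ A.valuation (w * w) := by
    have e1 : y0 ^ (q ^ 2 - 1) = (y0 * x ^ m) ^ (q ^ 2 - 1) * s ^ (m * (q ^ 2 - 1)) := by
      rw [mul_pow, ← pow_mul, mul_assoc, hxspow, mul_one]
    rw [e1, hww, map_mul, map_pow, hη, one_pow, one_mul, map_pow, map_pow]
    refine pow_le_pow_right_of_le_one' hvs1 ?_
    have h1q : 1 ≤ q ^ 2 := Nat.one_le_pow _ _ (by omega)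
    zify [h1q]
    have hm1' : (1 : ℤ) ≤ m := by exact_mod_cast hm1
    have hq3' : (3 : ℤ) * m ≤ q := by exact_mod_cast hq3
    nlinarith
  have hmain : (1 + (y0 * x ^ m - 1) ^ q) * (1 - δ) =
      (1 + y0 ^ (q ^ 2 - 1)) * (1 + (y0 * x ^ m - 1)) := by
    have e0 : (1 + (y0 * x ^ m - 1)) ^ q = 1 + (y0 * x ^ m - 1) ^ q := by
      rw [hfrob, one_pow]
    have e1 : 1 + (y0 * x ^ m - 1) = y0 * x ^ m := by ring
    rw [← e0, e1]
    have e2 : y0 ^ (q ^ 2) = y0 ^ (q ^ 2 - 1) * y0 := by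
      rw [← pow_succ]
      congr 1
      have h1q : 1 ≤ q ^ 2 := Nat.one_le_pow _ _ (by omega)
      omega
    have e3 : y0 ^ (q ^ 2) - x ^ (m * (q - 1)) * (1 - δ) * y0 ^ q + y0 = 0 := h0
    have e4 : (y0 * x ^ m) ^ q = y0 ^ q * x ^ (m * (q - 1)) * x ^ m := by
      rw [mul_pow, ← pow_mul, mul_assoc, ← pow_add]
      congr 2
      have h1q : 1 ≤ q := by omega
      zify [h1q]
      ring
    rw [e4]
    rw [e2] at e3
    linear_combination (-x ^ m) * e3
  have hcore := es_core A q (by omega) δ (y0 ^ (q ^ 2 - 1)) (y0 * x ^ m - 1) w hδ hε hw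
    (hδ.trans hw) ((ValuationSubring.mem_nonunits_iff A).1 hres)
    (by linear_combination (-1 : L) * hmain)
  rw [ValuationSubring.mem_nonunits_iff]
  have hfin : (y0 ^ (q + 1))⁻¹ - x ^ (m * (q + 1)) * (1 + δ) =
      x ^ (m * (q + 1)) * ((y0 * x ^ m) ^ (q + 1))⁻¹ *
        (1 - (1 + δ) * ((1 + (y0 * x ^ m - 1) ^ q) * (1 + (y0 * x ^ m - 1)))) := by
    have e0 : (1 + (y0 * x ^ m - 1)) ^ q = 1 + (y0 * x ^ m - 1) ^ q := by
      rw [hfrob, one_pow]
    have e1 : 1 + (y0 * x ^ m - 1) = y0 * x ^ m := by ring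
    rw [← e0, e1, ← pow_succ]
    have hne : (y0 * x ^ m) ^ (q + 1) ≠ 0 := pow_ne_zero _ (mul_ne_zero hy00 (pow_ne_zero _ hx0))
    have e2 : x ^ (m * (q + 1)) * ((y0 * x ^ m) ^ (q + 1))⁻¹ = (y0 ^ (q + 1))⁻¹ := by
      rw [mul_pow, ← pow_mul, mul_inv, mul_comm ((y0 ^ (q + 1))⁻¹), ← mul_assoc,
        mul_inv_cancel₀ (pow_ne_zero _ hx0), one_mul]
    rw [mul_sub, mul_one, e2]
    congr 1
    calc x ^ (m * (q + 1)) * (1 + δ)
        = (x ^ (m * (q + 1)) * ((y0 * x ^ m) ^ (q + 1))⁻¹) * ((1 + δ) * (y0 * x ^ m) ^ (q + 1)) := by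
          field_simp
      _ = _ := by rw [e2]
  rw [hfin, map_mul, map_mul, map_inv₀, map_pow A.valuation (y0 * x ^ m), hη, one_pow, inv_one,
    mul_one]
  calc A.valuation (x ^ (m * (q + 1))) *
        A.valuation (1 - (1 + δ) * ((1 + (y0 * x ^ m - 1) ^ q) * (1 + (y0 * x ^ m - 1))))
      ≤ A.valuation (x ^ (m * (q + 1))) * A.valuation (w * w) := mul_le_mul_right hcore _
    _ = A.valuation (s ^ (q + 1)) := by
        rw [← map_mul, hww]
        congr 1
        have : (q + 1) * (m + 1) = m * (q + 1) + (q + 1) := by ring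
        rw [this, pow_add, ← mul_assoc, hxspow, one_mul]
    _ < 1 := by
        rw [map_pow]
        exact pow_lt_one' hvs (by omega)

end Inf

end Pool.Agent.Helper54.SL
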