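import Pool.Agent.Helper54.SL.Defs
import Pool.Agent.Helper54.PW.Final

/-!
SL-4. Places where `T` is finite.
-/

set_option autoImplicit false
set_option linter.unusedVariables false
set_option linter.unusedSectionVars false
open scoped Pointwise
open Pool.Agent.Helper54.PW

namespace Pool.Agent.Helper54.SL

theorem unit_of_rt {p n : ℕ} (hp : 1 < p ^ n) {L : Type} [Field L] (A : ValuationSubring L) {T y : L}
    (hT : T ∈ A) (hy : Rt (p ^ n) T y) (hy0 : y ≠ 0) : A.valuation y = 1 := by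
  set q := p ^ n with hq
  have hq2 : q + 2 ≤ q ^ 2 := by nlinarith
  have heq : y ^ (q ^ 2) - T * y ^ q + y = 0 := hy
  have hyA : y ∈ A := by
    rcases A.mem_or_inv_mem y with h | h
    · exact h
    · have h1 : y = T * (y⁻¹) ^ (q ^ 2 - q - 1) - (y⁻¹) ^ (q ^ 2 - 2) := by
        have e1 : y ^ (q ^ 2) = y ^ (q ^ 2 - 1) * y := by
          rw [← pow_succ]; congr 1; omega
        have e2 : y ^ q * (y⁻¹) ^ (q ^ 2 - 1) = (y⁻¹) ^ (q ^ 2 - q - 1) := by
          have : q ^ 2 - 1 = q + (q ^ 2 - q - 1) := by omega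
          rw [this, pow_add, ← mul_assoc, ← mul_pow, mul_inv_cancel₀ hy0, one_pow, one_mul]
        have e3 : y * (y⁻¹) ^ (q ^ 2 - 1) = (y⁻¹) ^ (q ^ 2 - 2) := by
          have : q ^ 2 - 1 = 1 + (q ^ 2 - 2) := by omega
          rw [this, pow_add, pow_one, ← mul_assoc, mul_inv_cancel₀ hy0, one_mul]
        have e4 : y ^ (q ^ 2 - 1) * (y⁻¹) ^ (q ^ 2 - 1) = 1 := by
          rw [← mul_pow, mul_inv_cancel₀ hy0, one_pow]
        have e5 : (y ^ (q ^ 2) - T * y ^ q + y) * (y⁻¹) ^ (q ^ 2 - 1) = 0 := by rw [heq, zero_mul]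
        rw [e1] at e5
        have e6 : (y ^ (q ^ 2 - 1) * (y⁻¹) ^ (q ^ 2 - 1)) * y - T * (y ^ q * (y⁻¹) ^ (q ^ 2 - 1)) +
            y * (y⁻¹) ^ (q ^ 2 - 1) = 0 := by
          rw [← e5]; ring
        rw [e4, e2, e3, one_mul] at e6
        linear_combination e6
      rw [h1]
      exact sub_mem (mul_mem hT (pow_mem h _)) (pow_mem h _)
  have hinv : y⁻¹ ∈ A := by
    have h1 : y⁻¹ = T * y ^ (q - 2) - y ^ (q ^ 2 - 2) := by
      have e1 : y ^ (q ^ 2) = y ^ (q ^ 2 - 2) * y * y := by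
        rw [← pow_succ, ← pow_succ]; congr 1; omega
      have e2 : y ^ q = y ^ (q - 2) * y * y := by
        rw [← pow_succ, ← pow_succ]; congr 1; omega
      rw [e1, e2] at heq
      have e3 : (y ^ (q ^ 2 - 2) - T * y ^ (q - 2)) * y + 1 = 0 := by
        have : ((y ^ (q ^ 2 - 2) - T * y ^ (q - 2)) * y + 1) * y = 0 := by
          rw [← heq]; ring
        exact (mul_eq_zero.1 this).resolve_right hy0
      have e4 : (T * y ^ (q - 2) - y ^ (q ^ 2 - 2)) * y = 1 := by linear_combination -e3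
      exact (eq_inv_of_mul_eq_one_left e4).symm
    rw [h1]
    exact sub_mem (mul_mem hT (pow_mem hyA _)) (pow_mem hyA _)
  apply le_antisymm
  · exact (A.valuation_le_one_iff y).2 hyA
  · have h1 := (A.valuation_le_one_iff y⁻¹).2 hinv
    rw [map_inv₀] at h1
    have h2 : 0 < A.valuation y := by
      rw [zero_lt_iff]
      exact (map_ne_zero _).2 hy0
    exact (inv_le_one₀ h2).1 h1

theorem fixed_of_rt {p n : ℕ} [Fact p.Prime] (hn : 0 < n) {k M F : Type} [Field k] [IsAlgClosed k]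
    [CharP k p] [Field M] [Field F] [Algebra k M] [Algebra k F] [Algebra M F] [IsScalarTower k M F]
    (hF : FF k F) (A : ValuationSubring F) (hA : IsPlace k A) (T : M) (hT : algebraMap M F T ∈ A)
    (σ : F ≃ₐ[M] F) (hσ : σ • A = A) (y : F) (hy : Rt (p ^ n) (algebraMap M F T) y) : σ y = y := by
  have hp1 : 1 < p ^ n := Nat.one_lt_pow hn.ne' (Fact.out : p.Prime).one_lt
  have hchar : CharP F p := by
    have := charP_of_injective_algebraMap (algebraMap k F).injective p
    exact this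
  by_cases hy0 : y = 0
  · rw [hy0, map_zero]
  have hyA : y ∈ A := by
    have h1 := unit_of_rt hp1 A hT hy hy0
    exact (A.valuation_le_one_iff y).1 h1.le
  have h2 := stab_sub_mem_nonunits hF A hA σ hσ y hyA
  by_contra hne
  have hne' : σ y - y ≠ 0 := sub_ne_zero.2 hne
  have hσy : Rt (p ^ n) (algebraMap M F T) (σ y) := by
    have : σ (y ^ ((p ^ n) ^ 2) - algebraMap M F T * y ^ (p ^ n) + y) = σ 0 := congrArg σ hy
    simp only [map_add, map_sub, map_mul, map_pow, AlgEquiv.commutes, map_zero] at this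
    exact this
  have hz : Rt (p ^ n) (algebraMap M F T) (σ y - y) := by
    have h3 : σ y ^ ((p ^ n) ^ 2) - algebraMap M F T * σ y ^ (p ^ n) + σ y = 0 := hσy
    have h4 : y ^ ((p ^ n) ^ 2) - algebraMap M F T * y ^ (p ^ n) + y = 0 := hy
    show (σ y - y) ^ ((p ^ n) ^ 2) - algebraMap M F T * (σ y - y) ^ (p ^ n) + (σ y - y) = 0
    have e1 : (σ y - y) ^ (p ^ n) = σ y ^ (p ^ n) - y ^ (p ^ n) := sub_pow_char_pow _ _ n
    have e2 : (σ y - y) ^ ((p ^ n) ^ 2) = σ y ^ ((p ^ n) ^ 2) - y ^ ((p ^ n) ^ 2) := by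
      rw [← pow_mul]
      exact sub_pow_char_pow _ _ _
    rw [e1, e2]
    linear_combination h3 - h4
  have h5 := unit_of_rt hp1 A hT hz hne'
  exact absurd h5 ((ValuationSubring.mem_nonunits_iff A).1 h2).ne

end Pool.Agent.Helper54.SL
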